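import Mathlib
import Pool.Agent.H50.G.S.H373R2.T7.Bonf
import Pool.Agent.H50.G.S.H373R2.T7.Cnt
import Pool.Agent.H50.G.S.H373R2.T7.Minor
/-! The sieve model of the von Mangoldt function. -/

namespace Pool.Agent.H373R2.T7
open Finset
open Pool.Agent.H807R2.Dav

/-- primes up to `z` -/
def pz (z : ℕ) : Finset ℕ := (Icc 1 z).filter Nat.Prime

noncomputable def Vz (z : ℕ) : ℝ := ∏ p ∈ pz z, (1 - 1 / (p : ℝ))

/-- the sieve model -/
noncomputable def lamz (z n : ℕ) : ℝ := if ∀ p ∈ pz z, ¬ p ∣ n then (Vz z)⁻¹ else 0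

lemma mem_pz {z p : ℕ} : p ∈ pz z ↔ p ≤ z ∧ p.Prime := by
  unfold pz
  rw [mem_filter, mem_Icc]
  constructor
  · rintro ⟨⟨_, h⟩, h2⟩; exact ⟨h, h2⟩
  · rintro ⟨h, h2⟩; exact ⟨⟨h2.one_le, h⟩, h2⟩

lemma sum_pz_le (z : ℕ) : ∑ p ∈ pz z, 1 / (p : ℝ) ≤ 1 + Real.log z := by
  have h1 : ∑ p ∈ pz z, 1 / (p : ℝ) ≤ ∑ n ∈ Icc 1 z, 1 / (n : ℝ) :=
    sum_le_sum_of_subset_of_nonneg (filter_subset _ _) (fun _ _ _ => by positivity)
  have h2 : ∑ n ∈ Icc 1 z, 1 / (n : ℝ) = ((harmonic z : ℚ) : ℝ) := by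
    rw [harmonic_eq_sum_Icc]
    push_cast
    simp
  rw [h2] at h1
  exact h1.trans (harmonic_le_one_add_log z)

lemma Vz_ge (z : ℕ) (hz : 1 ≤ z) : 1 / (z : ℝ) ≤ Vz z := by
  induction z, hz using Nat.le_induction with
  | base =>
    have : pz 1 = ∅ := by
      rw [eq_empty_iff_forall_notMem]
      intro p hp
      rw [mem_pz] at hp
      have := hp.2.two_le
      omega
    unfold Vz
    rw [this]
    simp
  | succ z hz ih =>
    have hz0 : (0 : ℝ) < z := by exact_mod_cast hz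
    by_cases hp : (z + 1).Prime
    · have h1 : pz (z + 1) = insert (z + 1) (pz z) := by
        ext p
        rw [mem_insert, mem_pz, mem_pz]
        constructor
        · rintro ⟨h1, h2⟩
          rcases Nat.lt_or_ge p (z + 1) with h | h
          · exact Or.inr ⟨by omega, h2⟩
          · exact Or.inl (by omega)
        · rintro (h | ⟨h1, h2⟩)
          · rw [h]; exact ⟨le_rfl, hp⟩
          · exact ⟨by omega, h2⟩
      have h2 : z + 1 ∉ pz z := by
        rw [mem_pz]
        omega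
      unfold Vz at ih ⊢
      rw [h1, prod_insert h2]
      calc 1 / ((z + 1 : ℕ) : ℝ) = (1 - 1 / ((z + 1 : ℕ) : ℝ)) * (1 / z) := by
            push_cast
            field_simp
            ring
        _ ≤ _ := by
            apply mul_le_mul_of_nonneg_left ih
            rw [sub_nonneg]
            push_cast
            rw [div_le_one (by positivity)]
            linarith
    · have h1 : pz (z + 1) = pz z := by
        ext p
        rw [mem_pz, mem_pz]
        constructor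
        · rintro ⟨h1, h2⟩
          rcases Nat.lt_or_ge p (z + 1) with h | h
          · exact ⟨by omega, h2⟩
          · have : p = z + 1 := by omega
            exact absurd (this ▸ h2) hp
        · rintro ⟨h1, h2⟩
          exact ⟨by omega, h2⟩
      unfold Vz at ih ⊢
      rw [h1]
      refine le_trans ?_ ih
      apply one_div_le_one_div_of_le hz0
      push_cast
      linarith

lemma Vz_pos (z : ℕ) : 0 < Vz z := by
  unfold Vz
  apply prod_pos
  intro p hp
  rw [mem_pz] at hp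
  have : (2 : ℝ) ≤ p := by exact_mod_cast hp.2.two_le
  rw [sub_pos, div_lt_one (by linarith)]
  linarith

lemma Vz_inv_le (z : ℕ) (hz : 1 ≤ z) : (Vz z)⁻¹ ≤ z := by
  have h := Vz_ge z hz
  have hz0 : (0 : ℝ) < z := by exact_mod_cast hz
  rw [inv_le_comm₀ (Vz_pos z) hz0, ← one_div]
  exact h

lemma Vz_le_one (z : ℕ) : Vz z ≤ 1 := by
  unfold Vz
  apply prod_le_one
  · intro p hp
    rw [mem_pz] at hp
    have : (2 : ℝ) ≤ p := by exact_mod_cast hp.2.two_le
    rw [sub_nonneg, div_le_one (by linarith)]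
    linarith
  · intro p _
    have : (0 : ℝ) ≤ 1 / p := by positivity
    linarith

lemma lamz_nonneg (z n : ℕ) : 0 ≤ lamz z n := by
  unfold lamz
  split_ifs
  · exact (inv_pos.2 (Vz_pos z)).le
  · exact le_rfl

lemma lamz_le (z : ℕ) (hz : 1 ≤ z) (n : ℕ) : lamz z n ≤ z := by
  unfold lamz
  split_ifs
  · exact Vz_inv_le z hz
  · exact Nat.cast_nonneg _

lemma prod_dvd_iff (S : Finset ℕ) (hS : ∀ p ∈ S, p.Prime) (n : ℕ) : (∀ p ∈ S, p ∣ n) ↔ ∏ p ∈ S, p ∣ n := by
  constructor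
  · intro h
    exact Finset.prod_primes_dvd n (fun p hp => (hS p hp).prime) h
  · intro h p hp
    exact (dvd_prod_of_mem _ hp).trans h

/-- products of distinct sets of primes are distinct -/
lemma prod_inj (S S' : Finset ℕ) (hS : ∀ p ∈ S, p.Prime) (hS' : ∀ p ∈ S', p.Prime) (h : ∏ p ∈ S, p = ∏ p ∈ S', p) : S = S' := by
  ext p
  constructor
  · intro hp
    have h1 : p ∣ ∏ p ∈ S', p := h ▸ dvd_prod_of_mem _ hp
    obtain ⟨p', hp', hd⟩ := (Prime.dvd_finsetProd_iff (hS p hp).prime _).1 h1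
    rw [Nat.prime_dvd_prime_iff_eq (hS p hp) (hS' p' hp')] at hd
    exact hd ▸ hp'
  · intro hp
    have h1 : p ∣ ∏ p ∈ S, p := h.symm ▸ dvd_prod_of_mem _ hp
    obtain ⟨p', hp', hd⟩ := (Prime.dvd_finsetProd_iff (hS' p hp).prime _).1 h1
    rw [Nat.prime_dvd_prime_iff_eq (hS' p hp) (hS p' hp')] at hd
    exact hd ▸ hp'

lemma prod_le_pow (S : Finset ℕ) (z r : ℕ) (hS : S ⊆ pz z) (hr : S.card ≤ r) : ∏ p ∈ S, p ≤ (z + 1) ^ r := by
  calc ∏ p ∈ S, p ≤ ∏ _p ∈ S, (z + 1) := prod_le_prod' fun p hp => by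
        have := (mem_pz.1 (hS hp)).1
        omega
    _ = (z + 1) ^ S.card := by rw [prod_const]
    _ ≤ (z + 1) ^ r := Nat.pow_le_pow_right (by omega) hr

lemma card_pz_le (z : ℕ) : (pz z).card ≤ z := by
  unfold pz
  refine (card_filter_le _ _).trans ?_
  simp

/-- the numbers free of small primes in a progression -/
lemma rough_ap (z q c y r : ℕ) (hq : 1 ≤ q) (hc : c.Coprime q) (hqz : ∀ p, p.Prime → p ∣ q → p ≤ z) :
    |(((Icc 1 y).filter (fun n => n ≡ c [MOD q])).filter (fun n => ∀ p ∈ pz z, ¬ p ∣ n)).card -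
      (y : ℝ) / (Nat.totient q : ℝ) * Vz z| ≤ ((z : ℝ) + 1) ^ r + 2 * y * Real.exp (3 * (1 + Real.log z) - r) := by
  set T := (pz z).filter (fun p => ¬ p ∣ q) with hT
  have hq0 : (0 : ℝ) < q := by exact_mod_cast hq
  have hTz : T ⊆ pz z := filter_subset _ _
  -- only primes not dividing `q` matter
  have e1 : ((Icc 1 y).filter (fun n => n ≡ c [MOD q])).filter (fun n => ∀ p ∈ pz z, ¬ p ∣ n) =
      ((Icc 1 y).filter (fun n => n ≡ c [MOD q])).filter (fun n => ∀ p ∈ T, ¬ p ∣ n) := by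
    apply filter_congr
    intro n hn
    rw [mem_filter] at hn
    constructor
    · intro h p hp
      exact h p (hTz hp)
    · intro h p hp hpn
      by_cases hpq : p ∣ q
      · have h1 : p ∣ c := (hn.2.dvd_iff hpq).1 hpn
        have h2 := Nat.dvd_gcd h1 hpq
        rw [hc] at h2
        exact (mem_pz.1 hp).2.one_lt.ne' (Nat.dvd_one.1 h2)
      · exact h p (mem_filter.2 ⟨hp, hpq⟩) hpn
  rw [e1]
  have key := sieve_gen' ((Icc 1 y).filter (fun n => n ≡ c [MOD q])) (fun _ => (1 : ℝ)) (fun _ _ => zero_le_one)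
    (fun p n => p ∣ n) T (fun p => 1 / (p : ℝ)) (fun p hp => by
      have hp2 : (2 : ℝ) ≤ p := by exact_mod_cast (mem_pz.1 (hTz hp)).2.two_le
      constructor
      · positivity
      · rw [div_le_one (by linarith)]; linarith) ((y : ℝ) / q) (by positivity) (fun _ => 1) r (by
      intro S hS _
      have hSp : ∀ p ∈ S, p.Prime := fun p hp => (mem_pz.1 (hTz (hS hp))).2
      have h := count_sys (fun _ a => a = 0) y S hSp q hq (fun p hp => (mem_filter.1 (hS hp)).2) c
      have h1 : ∀ p ∈ S, (((range p).filter (fun a => a = 0)).card : ℝ) = 1 := by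
        intro p hp
        have : (range p).filter (fun a => a = 0) = {0} := by
          ext a
          rw [mem_filter, mem_range, mem_singleton]
          constructor
          · rintro ⟨_, h⟩; exact h
          · rintro rfl; exact ⟨(hSp p hp).pos, rfl⟩
        rw [this]; simp
      have h2 : ∏ p ∈ S, ((((range p).filter (fun a => a = 0)).card : ℝ) / p) = ∏ p ∈ S, (1 / (p : ℝ)) :=
        prod_congr rfl fun p hp => by rw [h1 p hp]
      rw [h2, prod_congr rfl h1, prod_const_one] at h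
      have h3 : ∑ i ∈ ((Icc 1 y).filter (fun n => n ≡ c [MOD q])) with ∀ p ∈ S, p ∣ i, (1 : ℝ) =
          (((Icc 1 y).filter (fun n => n ≡ c [MOD q] ∧ ∀ p ∈ S, n % p = 0)).card : ℝ) := by
        rw [sum_const, nsmul_eq_mul, mul_one, filter_filter]
        congr 2
        apply filter_congr
        intro n _
        simp only [Nat.dvd_iff_mod_eq_zero]
      rw [h3]
      exact h)
  have e2 : ∑ i ∈ ((Icc 1 y).filter (fun n => n ≡ c [MOD q])) with ∀ p ∈ T, ¬ p ∣ i, (1 : ℝ) =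
      ((((Icc 1 y).filter (fun n => n ≡ c [MOD q])).filter (fun n => ∀ p ∈ T, ¬ p ∣ n)).card : ℝ) := by
    rw [sum_const, nsmul_eq_mul, mul_one]
  rw [e2] at key
  have e3 : (y : ℝ) / q * ∏ p ∈ T, (1 - 1 / (p : ℝ)) = (y : ℝ) / (Nat.totient q : ℝ) * Vz z := by
    have h1 : ((Nat.totient q : ℕ) : ℝ) = q * ∏ p ∈ q.primeFactors, (1 - 1 / (p : ℝ)) := by
      have := Nat.totient_eq_mul_prod_factors q
      have h2 : (((Nat.totient q : ℕ) : ℚ) : ℝ) = ((q * ∏ p ∈ q.primeFactors, (1 - (p : ℚ)⁻¹) : ℚ) : ℝ) := by rw [this]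
      push_cast at h2
      simp only [one_div]
      exact h2
    have h2 : Vz z = (∏ p ∈ q.primeFactors, (1 - 1 / (p : ℝ))) * ∏ p ∈ T, (1 - 1 / (p : ℝ)) := by
      unfold Vz
      have h3 : q.primeFactors = (pz z).filter (fun p => p ∣ q) := by
        ext p
        rw [Nat.mem_primeFactors, mem_filter, mem_pz]
        constructor
        · rintro ⟨h1, h2, h3⟩
          exact ⟨⟨hqz p h1 h2, h1⟩, h2⟩
        · rintro ⟨⟨h1, h2⟩, h3⟩
          exact ⟨h2, h3, by omega⟩
      rw [h3, hT, prod_filter_mul_prod_filter_not]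
    have h3 : (0 : ℝ) < ∏ p ∈ q.primeFactors, (1 - 1 / (p : ℝ)) := by
      apply prod_pos
      intro p hp
      have : (2 : ℝ) ≤ p := by exact_mod_cast (Nat.prime_of_mem_primeFactors hp).two_le
      rw [sub_pos, div_lt_one (by linarith)]
      linarith
    rw [h1, h2]
    field_simp
  rw [e3] at key
  refine key.trans ?_
  have h4 : ∑ j ∈ range (r + 1), ∑ S ∈ T.powersetCard j, (1 : ℝ) ≤ ((z : ℝ) + 1) ^ r := by
    have h5 := card_small T r
    have h6 : ∑ j ∈ range (r + 1), ∑ S ∈ T.powersetCard j, (1 : ℝ) = ((∑ j ∈ range (r + 1), (T.powersetCard j).card : ℕ) : ℝ) := by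
      push_cast
      apply sum_congr rfl
      intro j _
      rw [sum_const, nsmul_eq_mul, mul_one]
    rw [h6]
    refine h5.trans ?_
    have h7 : (T.card : ℝ) ≤ z := by exact_mod_cast (card_le_card hTz).trans (card_pz_le z)
    gcongr
  have h5 : es (fun p => 1 / (p : ℝ)) T r ≤ Real.exp (3 * (1 + Real.log z) - r) := by
    refine (es_le (fun p _ => by positivity) r).trans ?_
    apply Real.exp_le_exp.2
    have h6 : ∑ p ∈ T, 1 / (p : ℝ) ≤ ∑ p ∈ pz z, 1 / (p : ℝ) :=
      sum_le_sum_of_subset_of_nonneg hTz (fun _ _ _ => by positivity)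
    have := sum_pz_le z
    linarith
  have h6 : (y : ℝ) / q ≤ y := div_le_self (Nat.cast_nonneg _) (by exact_mod_cast hq)
  have h7 : 2 * ((y : ℝ) / q) * es (fun p => 1 / (p : ℝ)) T r ≤ 2 * y * Real.exp (3 * (1 + Real.log z) - r) := by
    have h8 : 0 ≤ es (fun p => 1 / (p : ℝ)) T r := es_nonneg (fun p _ => by positivity) r
    gcongr
  linarith

/-- sums of the model in progressions -/
theorem lamz_ap (E U : ℕ) : ∃ N0 : ℕ, ∀ N : ℕ, N0 ≤ N → ∀ z : ℕ, 1 ≤ z → (z : ℝ) ≤ Real.log N ^ E →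
    ∀ q : ℕ, 1 ≤ q → q ≤ z → ∀ c y : ℕ, y ≤ N →
    |∑ n ∈ (Icc 1 y).filter (fun n => n ≡ c [MOD q]), lamz z n -
      (if c.Coprime q then (y : ℝ) / (Nat.totient q : ℝ) else 0)| ≤ N / Real.log N ^ U := by
  obtain ⟨N0, h0⟩ := choice 1 E (U + E + 1) 2
  obtain ⟨n1, h1⟩ := ev_log' (U + E + 1) 1
  obtain ⟨n2, h2⟩ := ev_L' 3
  refine ⟨max (max N0 n1) (max n2 1), fun N hN z hz hzE q hq hqz c y hy => ?_⟩
  have a0 := h0 N (le_trans (le_trans (le_max_left _ _) (le_max_left _ _)) hN) z hzE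
  have a1 := h1 N (le_trans (le_trans (le_max_right _ _) (le_max_left _ _)) hN)
  have hL := h2 N (le_trans (le_trans (le_max_left _ _) (le_max_right _ _)) hN)
  have hN1 : 1 ≤ N := le_trans (le_trans (le_max_right _ _) (le_max_right _ _)) hN
  have hNr : (1 : ℝ) ≤ N := by exact_mod_cast hN1
  have hN0' : (0 : ℝ) < N := by linarith
  set L := Real.log N with hLd
  have hL0 : 0 < L := by linarith
  have hVinv := Vz_inv_le z hz
  have hV0 : 0 < (Vz z)⁻¹ := inv_pos.2 (Vz_pos z)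
  obtain ⟨r, hr1, hr2, _⟩ := a0
  by_cases hc : c.Coprime q
  · rw [if_pos hc]
    have h3 := rough_ap z q c y r hq hc (fun p hp hpq => (Nat.le_of_dvd (by omega) hpq).trans hqz)
    have h4 : ∑ n ∈ (Icc 1 y).filter (fun n => n ≡ c [MOD q]), lamz z n =
        (Vz z)⁻¹ * ((((Icc 1 y).filter (fun n => n ≡ c [MOD q])).filter (fun n => ∀ p ∈ pz z, ¬ p ∣ n)).card : ℝ) := by
      unfold lamz
      rw [← sum_filter, sum_const, nsmul_eq_mul, mul_comm]
    rw [h4]
    have h5 : (Vz z)⁻¹ * ((((Icc 1 y).filter (fun n => n ≡ c [MOD q])).filter (fun n => ∀ p ∈ pz z, ¬ p ∣ n)).card : ℝ) -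
        (y : ℝ) / (Nat.totient q : ℝ) = (Vz z)⁻¹ * (((((Icc 1 y).filter (fun n => n ≡ c [MOD q])).filter (fun n => ∀ p ∈ pz z, ¬ p ∣ n)).card : ℝ) -
        (y : ℝ) / (Nat.totient q : ℝ) * Vz z) := by
      have := (Vz_pos z).ne'
      field_simp
    rw [h5, abs_mul, abs_of_pos hV0]
    have h6 : ((z : ℝ) + 1) ^ r ≤ √N := by
      rw [← Real.sqrt_sq (by positivity : (0 : ℝ) ≤ ((z : ℝ) + 1) ^ r)]
      exact Real.sqrt_le_sqrt hr2
    have h7 : Real.exp (3 * (1 + Real.log z) - r) ≤ 1 / L ^ (U + E + 1) := by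
      refine le_trans (le_of_eq ?_) hr1
      push_cast
      ring_nf
    have hyr : (y : ℝ) ≤ N := by exact_mod_cast hy
    have h8 : √(N : ℝ) ≤ N / L ^ (U + E + 1) := by
      rw [le_div_iff₀ (by positivity)]
      rw [one_mul] at a1
      calc √(N : ℝ) * L ^ (U + E + 1) ≤ √(N : ℝ) * √(N : ℝ) := by gcongr
        _ = N := Real.mul_self_sqrt hN0'.le
    calc (Vz z)⁻¹ * |((((Icc 1 y).filter (fun n => n ≡ c [MOD q])).filter (fun n => ∀ p ∈ pz z, ¬ p ∣ n)).card : ℝ) -
        (y : ℝ) / (Nat.totient q : ℝ) * Vz z| ≤ L ^ E * (N / L ^ (U + E + 1) + 2 * N * (1 / L ^ (U + E + 1))) := by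
          apply mul_le_mul (hVinv.trans hzE) _ (abs_nonneg _) (by positivity)
          refine h3.trans ?_
          apply add_le_add (h6.trans h8)
          gcongr
      _ = 3 / L * (N / L ^ U) := by
          field_simp
          ring
      _ ≤ 1 * (N / L ^ U) := by
          apply mul_le_mul_of_nonneg_right _ (by positivity)
          rw [div_le_one hL0]
          exact hL
      _ = N / L ^ U := one_mul _
  · rw [if_neg hc, sub_zero]
    have h3 : ∑ n ∈ (Icc 1 y).filter (fun n => n ≡ c [MOD q]), lamz z n = 0 := by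
      apply sum_eq_zero
      intro n hn
      rw [mem_filter] at hn
      unfold lamz
      rw [if_neg]
      intro h
      obtain ⟨p, hp, hpc, hpq⟩ := Nat.Prime.not_coprime_iff_dvd.1 hc
      exact h p (mem_pz.2 ⟨(Nat.le_of_dvd (by omega) hpq).trans hqz, hp⟩) ((hn.2.dvd_iff hpq).2 hpc)
    rw [h3, abs_zero]
    positivity

end Pool.Agent.H373R2.T7
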