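import Mathlib
import Pool.Agent.H50.G.S.H373R2.T7.Crt
import Pool.Agent.H50.G.S.H373R2.T7.LamZ2
import Pool.Agent.H50.G.S.H373R2.T7.LamMaj
/-! The main term for tuples: primes `n` with all `n + a_i` free of small primes. -/

namespace Pool.Agent.H373R2.T7
open Finset

/-- number of classes `r mod p` with `p | r` or `p | r + a_i` for some `i` -/
def nuP {k : ℕ} (a : Fin k → ℤ) (p : ℕ) : ℕ := ((range p).filter (fun r => p ∣ r ∨ ∃ i, (p : ℤ) ∣ (r : ℤ) + a i)).card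

/-- the singular series truncated at `z` -/
noncomputable def singZ {k : ℕ} (a : Fin k → ℤ) (z : ℕ) : ℝ :=
  ∏ p ∈ (Icc 1 z).filter Nat.Prime, (1 - (nuP a p : ℝ) / p) / (1 - 1 / (p : ℝ)) ^ (k + 1)

/-- nonzero classes -/
def rhoP {k : ℕ} (a : Fin k → ℤ) (p : ℕ) : ℕ := ((range p).filter (fun r => ¬ p ∣ r ∧ ∃ i, (p : ℤ) ∣ (r : ℤ) + a i)).card

lemma nuP_eq {k : ℕ} (a : Fin k → ℤ) (p : ℕ) (hp : p.Prime) : nuP a p = rhoP a p + 1 := by
  unfold nuP rhoP
  have h : (range p).filter (fun r => p ∣ r ∨ ∃ i, (p : ℤ) ∣ (r : ℤ) + a i) =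
      insert 0 ((range p).filter (fun r => ¬ p ∣ r ∧ ∃ i, (p : ℤ) ∣ (r : ℤ) + a i)) := by
    ext r
    rw [mem_insert, mem_filter, mem_filter, mem_range]
    constructor
    · rintro ⟨h1, h2⟩
      by_cases h3 : p ∣ r
      · left
        exact Nat.eq_zero_of_dvd_of_lt h3 h1
      · right
        exact ⟨h1, h3, h2.resolve_left h3⟩
    · rintro (h1 | ⟨h1, h2, h3⟩)
      · rw [h1]; exact ⟨hp.pos, Or.inl (dvd_zero _)⟩
      · exact ⟨h1, Or.inr h3⟩
  rw [h, card_insert_of_notMem]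
  rw [mem_filter]
  rintro ⟨_, h1, _⟩
  exact h1 (dvd_zero _)

lemma rhoP_le {k : ℕ} (a : Fin k → ℤ) (p : ℕ) : rhoP a p ≤ p - 1 := by
  unfold rhoP
  have h : (range p).filter (fun r => ¬ p ∣ r ∧ ∃ i, (p : ℤ) ∣ (r : ℤ) + a i) ⊆ Ico 1 p := by
    intro r hr
    rw [mem_filter, mem_range] at hr
    rw [mem_Ico]
    refine ⟨?_, hr.1⟩
    rcases Nat.eq_zero_or_pos r with h | h
    · exact absurd (h ▸ dvd_zero _) hr.2.1
    · exact h
  refine (card_le_card h).trans ?_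
  simp

lemma rhoP_le_k {k : ℕ} (a : Fin k → ℤ) (p : ℕ) : rhoP a p ≤ k := by
  unfold rhoP
  have h : (range p).filter (fun r => ¬ p ∣ r ∧ ∃ i, (p : ℤ) ∣ (r : ℤ) + a i) ⊆
      univ.biUnion (fun i : Fin k => (range p).filter (fun r : ℕ => (p : ℤ) ∣ (r : ℤ) + a i)) := by
    intro r hr
    rw [mem_filter] at hr
    rw [mem_biUnion]
    obtain ⟨i, hi⟩ := hr.2.2
    exact ⟨i, mem_univ _, mem_filter.2 ⟨hr.1, hi⟩⟩
  refine (card_le_card h).trans (card_biUnion_le.trans ?_)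
  have h1 : ∀ i : Fin k, ((range p).filter (fun r : ℕ => (p : ℤ) ∣ (r : ℤ) + a i)).card ≤ 1 := by
    intro i
    rw [card_le_one]
    intro r hr r' hr'
    rw [mem_filter, mem_range] at hr hr'
    have h2 : (p : ℤ) ∣ (r : ℤ) - r' := by
      have := dvd_sub hr.2 hr'.2
      have e : (r : ℤ) + a i - ((r' : ℤ) + a i) = r - r' := by ring
      rwa [e] at this
    have h3 : |(r : ℤ) - r'| < p := by rw [abs_lt]; constructor <;> omega
    have := Int.eq_zero_of_abs_lt_dvd h2 h3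
    omega
  refine (sum_le_sum fun i _ => h1 i).trans ?_
  simp

/-- the family of classes -/
noncomputable def LS {k : ℕ} (a : Fin k → ℤ) (z r d : ℕ) : Finset ℕ := by
  classical exact if ∃ S ⊆ pz z, S.card ≤ r ∧ ∏ p ∈ S, p = d then
    (range d).filter (fun b => ∀ p ∈ d.primeFactors, ¬ p ∣ b ∧ ∃ i, (p : ℤ) ∣ (b : ℤ) + a i) else ∅

lemma primeFactors_prod' (S : Finset ℕ) (hS : ∀ p ∈ S, p.Prime) : (∏ p ∈ S, p).primeFactors = S :=
  Nat.primeFactors_prod hS

lemma LS_eq {k : ℕ} (a : Fin k → ℤ) (z r : ℕ) (S : Finset ℕ) (hS : S ⊆ pz z) (hr : S.card ≤ r) :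
    LS a z r (∏ p ∈ S, p) = (range (∏ p ∈ S, p)).filter (fun b => ∀ p ∈ S, ¬ p ∣ b ∧ ∃ i, (p : ℤ) ∣ (b : ℤ) + a i) := by
  classical
  unfold LS
  rw [if_pos ⟨S, hS, hr, rfl⟩]
  apply filter_congr
  intro b _
  rw [primeFactors_prod' S (fun p hp => (mem_pz.1 (hS hp)).2)]

lemma LS_card {k : ℕ} (a : Fin k → ℤ) (z r : ℕ) (S : Finset ℕ) (hS : S ⊆ pz z) (hr : S.card ≤ r) :
    (LS a z r (∏ p ∈ S, p)).card = ∏ p ∈ S, rhoP a p := by
  rw [LS_eq a z r S hS hr]
  classical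
  have h := crt_card (fun p b => ¬ p ∣ b ∧ ∃ i, (p : ℤ) ∣ (b : ℤ) + a i) S (fun p hp => (mem_pz.1 (hS hp)).2)
  have e : ∏ p ∈ S, rhoP a p = ∏ p ∈ S, ((range p).filter (fun b => ¬ p ∣ b ∧ ∃ i, (p : ℤ) ∣ (b : ℤ) + a i)).card := by
    apply prod_congr rfl
    intro p _
    unfold rhoP
    congr 1
  rw [e, ← h]
  congr 1
  apply filter_congr
  intro b _
  have h1 : ∀ p : ℕ, (p ∣ b ↔ p ∣ b % p) := by
    intro p
    rw [Nat.dvd_iff_mod_eq_zero, Nat.dvd_iff_mod_eq_zero, Nat.mod_mod]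
  have h2 : ∀ (p : ℕ) (i : Fin k), ((p : ℤ) ∣ (b : ℤ) + a i ↔ (p : ℤ) ∣ ((b % p : ℕ) : ℤ) + a i) := by
    intro p i
    have e : (b : ℤ) + a i = (((b % p : ℕ) : ℤ) + a i) + p * ((b / p : ℕ) : ℤ) := by
      have := Nat.mod_add_div b p
      have h3 : (b : ℤ) = ((b % p : ℕ) : ℤ) + p * ((b / p : ℕ) : ℤ) := by exact_mod_cast this.symm
      rw [h3]
      ring
    rw [e]
    exact (Int.dvd_add_left (dvd_mul_right _ _))
  constructor
  · intro h p hp
    obtain ⟨h3, i, hi⟩ := h p hp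
    exact ⟨fun h4 => h3 ((h1 p).2 h4), i, (h2 p i).1 hi⟩
  · intro h p hp
    obtain ⟨h3, i, hi⟩ := h p hp
    exact ⟨fun h4 => h3 ((h1 p).1 h4), i, (h2 p i).2 hi⟩

/-- the error term in progressions -/
noncomputable def Ef {k : ℕ} (a : Fin k → ℤ) (N z r d : ℕ) : ℝ :=
  ∑ b ∈ LS a z r d, |lamAP N d b - lam1 N / (Nat.totient d : ℝ)|

lemma Ef_nonneg {k : ℕ} (a : Fin k → ℤ) (N z r d : ℕ) : 0 ≤ Ef a N z r d := sum_nonneg fun _ _ => abs_nonneg _

lemma dvd_mod_iff (n d p : ℕ) (h : p ∣ d) : p ∣ n % d ↔ p ∣ n := by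
  rw [Nat.dvd_mod_iff h]

lemma dvd_add_mod_iff (n d p : ℕ) (a : ℤ) (h : p ∣ d) : (p : ℤ) ∣ ((n % d : ℕ) : ℤ) + a ↔ (p : ℤ) ∣ (n : ℤ) + a := by
  obtain ⟨e, he⟩ := h
  have h1 : (n : ℤ) = ((n % d : ℕ) : ℤ) + d * ((n / d : ℕ) : ℤ) := by
    have := Nat.mod_add_div n d
    exact_mod_cast this.symm
  have h2 : (n : ℤ) + a = (((n % d : ℕ) : ℤ) + a) + p * (e * ((n / d : ℕ) : ℤ)) := by
    have h3 : (d : ℤ) = p * e := by exact_mod_cast he
    calc (n : ℤ) + a = (((n % d : ℕ) : ℤ) + d * ((n / d : ℕ) : ℤ)) + a := by rw [← h1]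
      _ = _ := by rw [h3]; ring
  rw [h2]
  exact (Int.dvd_add_left (dvd_mul_right _ _)).symm

theorem tuple_sieve {k : ℕ} (a : Fin k → ℤ) (N z r : ℕ) :
    |∑ n ∈ ((Icc 1 N).filter (fun n : ℕ => ∀ p ∈ pz z, ¬ p ∣ n)).filter
        (fun n : ℕ => ∀ p ∈ pz z, ¬ ∃ i, (p : ℤ) ∣ (n : ℤ) + a i), ArithmeticFunction.vonMangoldt n - lam1 N * ∏ p ∈ pz z, (1 - (rhoP a p : ℝ) / (p - 1 : ℝ))| ≤
      ((z : ℝ) + 1) ^ r * (z * ((Nat.log 2 N + 1 : ℝ) * Real.log N)) + ∑ d ∈ Icc 1 ((z + 1) ^ r), Ef a N z r d +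
      2 * lam1 N * Real.exp (3 * ((2 * k : ℕ) * (1 + Real.log z)) - r) := by
  have hpp : ∀ S ⊆ pz z, ∀ p ∈ S, p.Prime := fun S hS p hp => (mem_pz.1 (hS hp)).2
  have hlN : 0 ≤ (Nat.log 2 N + 1 : ℝ) * Real.log N := by
    have := Real.log_natCast_nonneg N
    positivity
  have hψ : 0 ≤ lam1 N := sum_nonneg fun _ _ => ArithmeticFunction.vonMangoldt_nonneg
  have key := sieve_gen' ((Icc 1 N).filter (fun n => ∀ p ∈ pz z, ¬ p ∣ n)) (fun n => ArithmeticFunction.vonMangoldt n)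
    (fun _ _ => ArithmeticFunction.vonMangoldt_nonneg) (fun p n => ∃ i, (p : ℤ) ∣ (n : ℤ) + a i) (pz z)
    (fun p => (rhoP a p : ℝ) / (p - 1 : ℝ)) (fun p hp => by
      have hp2 : (2 : ℝ) ≤ p := by exact_mod_cast (mem_pz.1 hp).2.two_le
      constructor
      · apply div_nonneg (Nat.cast_nonneg _); linarith
      · rw [div_le_one (by linarith)]
        have h1 := rhoP_le a p
        have h2 : (rhoP a p : ℝ) ≤ ((p - 1 : ℕ) : ℝ) := by exact_mod_cast h1
        rw [Nat.cast_sub (mem_pz.1 hp).2.one_le] at h2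
        push_cast at h2
        exact h2) (lam1 N) hψ
    (fun S => z * ((Nat.log 2 N + 1 : ℝ) * Real.log N) + Ef a N z r (∏ p ∈ S, p)) r (by
      intro S hS hr
      have hSp := hpp S hS
      set d := ∏ p ∈ S, p with hd
      have hd1 : 1 ≤ d := Nat.pos_of_ne_zero (prod_ne_zero_iff.2 fun p hp => (hSp p hp).ne_zero)
      have hpd : ∀ p ∈ S, p ∣ d := fun p hp => dvd_prod_of_mem _ hp
      set W' : ℝ := ∑ n ∈ (Icc 1 N).filter (fun n : ℕ => ∀ p ∈ S, ¬ p ∣ n ∧ ∃ i, (p : ℤ) ∣ (n : ℤ) + a i),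
        ArithmeticFunction.vonMangoldt n with hW'
      have h1 : W' = ∑ b ∈ LS a z r d, lamAP N d b := by
        rw [hW', ← sum_fiberwise_of_maps_to (t := LS a z r d) (g := fun n => n % d)]
        · apply sum_congr rfl
          intro b hb
          rw [hd, LS_eq a z r S hS hr, ← hd, mem_filter, mem_range] at hb
          unfold lamAP
          apply sum_congr _ (fun _ _ => rfl)
          ext n
          rw [mem_filter, mem_filter, mem_filter]
          constructor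
          · rintro ⟨⟨h1, h2⟩, h3⟩
            refine ⟨h1, ?_⟩
            unfold Nat.ModEq
            rw [h3, Nat.mod_eq_of_lt hb.1]
          · rintro ⟨h1, h2⟩
            unfold Nat.ModEq at h2
            rw [Nat.mod_eq_of_lt hb.1] at h2
            refine ⟨⟨h1, fun p hp => ?_⟩, h2⟩
            obtain ⟨h3, i, hi⟩ := hb.2 p hp
            rw [← h2] at h3 hi
            exact ⟨fun h4 => h3 ((dvd_mod_iff n d p (hpd p hp)).2 h4), i, (dvd_add_mod_iff n d p (a i) (hpd p hp)).1 hi⟩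
        · intro n hn
          rw [mem_filter] at hn
          rw [hd, LS_eq a z r S hS hr, ← hd, mem_filter, mem_range]
          refine ⟨Nat.mod_lt _ hd1, fun p hp => ?_⟩
          obtain ⟨h3, i, hi⟩ := hn.2 p hp
          exact ⟨fun h4 => h3 ((dvd_mod_iff n d p (hpd p hp)).1 h4), i, (dvd_add_mod_iff n d p (a i) (hpd p hp)).2 hi⟩
      have h2 : lam1 N * ∏ p ∈ S, ((rhoP a p : ℝ) / (p - 1 : ℝ)) = ∑ b ∈ LS a z r d, lam1 N / (Nat.totient d : ℝ) := by
        rw [sum_const, nsmul_eq_mul, hd, LS_card a z r S hS hr, totient_prod S hSp, prod_div_distrib]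
        push_cast
        have h3 : ∏ p ∈ S, ((p - 1 : ℕ) : ℝ) = ∏ p ∈ S, ((p : ℝ) - 1) := by
          apply prod_congr rfl
          intro p hp
          rw [Nat.cast_sub (hSp p hp).one_le]
          push_cast
          ring
        rw [h3]
        ring
      have h3 : |W' - lam1 N * ∏ p ∈ S, ((rhoP a p : ℝ) / (p - 1 : ℝ))| ≤ Ef a N z r d := by
        rw [h1, h2, ← sum_sub_distrib]
        exact abs_sum_le_sum_abs _ _
      -- comparison of W and W'
      set W : ℝ := ∑ n ∈ ((Icc 1 N).filter (fun n : ℕ => ∀ p ∈ pz z, ¬ p ∣ n)).filter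
        (fun n : ℕ => ∀ p ∈ S, ∃ i, (p : ℤ) ∣ (n : ℤ) + a i), ArithmeticFunction.vonMangoldt n with hW
      have h4 : |W - W'| ≤ z * ((Nat.log 2 N + 1 : ℝ) * Real.log N) := by
        have h5 : W = ∑ n ∈ Icc 1 N, if (∀ p ∈ pz z, ¬ p ∣ n) ∧ (∀ p ∈ S, ∃ i, (p : ℤ) ∣ (n : ℤ) + a i) then
            ArithmeticFunction.vonMangoldt n else 0 := by
          rw [hW, filter_filter, sum_filter]
        have h6 : W' = ∑ n ∈ Icc 1 N, if (∀ p ∈ S, ¬ p ∣ n ∧ ∃ i, (p : ℤ) ∣ (n : ℤ) + a i) then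
            ArithmeticFunction.vonMangoldt n else 0 := by
          rw [hW', sum_filter]
        rw [h5, h6, ← sum_sub_distrib]
        refine (abs_sum_le_sum_abs _ _).trans ?_
        have h7 : ∀ n ∈ Icc 1 N, |(if (∀ p ∈ pz z, ¬ p ∣ n) ∧ (∀ p ∈ S, ∃ i, (p : ℤ) ∣ (n : ℤ) + a i) then
            ArithmeticFunction.vonMangoldt n else 0) - (if (∀ p ∈ S, ¬ p ∣ n ∧ ∃ i, (p : ℤ) ∣ (n : ℤ) + a i) then
            ArithmeticFunction.vonMangoldt n else 0)| ≤ ∑ p ∈ pz z, if p ∣ n then ArithmeticFunction.vonMangoldt n else 0 := by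
          intro n _
          have h8 : (0 : ℝ) ≤ ArithmeticFunction.vonMangoldt n := ArithmeticFunction.vonMangoldt_nonneg
          have h9 : 0 ≤ ∑ p ∈ pz z, if p ∣ n then ArithmeticFunction.vonMangoldt n else 0 :=
            sum_nonneg fun p _ => by split_ifs <;> simp [h8]
          by_cases h10 : ∀ p ∈ pz z, ¬ p ∣ n
          · by_cases h11 : ∀ p ∈ S, ∃ i, (p : ℤ) ∣ (n : ℤ) + a i
            · rw [if_pos ⟨h10, h11⟩, if_pos (fun p hp => ⟨h10 p (hS hp), h11 p hp⟩), sub_self, abs_zero]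
              exact h9
            · rw [if_neg (fun h => h11 h.2), if_neg (fun h => h11 (fun p hp => (h p hp).2)), sub_self, abs_zero]
              exact h9
          · rw [if_neg (fun h => h10 h.1), zero_sub, abs_neg]
            push Not at h10
            obtain ⟨p, hp, hpn⟩ := h10
            have h11 : |(if (∀ p ∈ S, ¬ p ∣ n ∧ ∃ i, (p : ℤ) ∣ (n : ℤ) + a i) then
              ArithmeticFunction.vonMangoldt n else 0)| ≤ ArithmeticFunction.vonMangoldt n := by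
              split_ifs
              · rw [abs_of_nonneg h8]
              · rw [abs_zero]; exact h8
            refine h11.trans ?_
            have h12 := single_le_sum (f := fun p => if p ∣ n then ArithmeticFunction.vonMangoldt n else (0 : ℝ))
              (s := pz z) (fun p _ => by split_ifs <;> simp [h8]) hp
            simp only [if_pos hpn] at h12
            exact h12
        refine (sum_le_sum h7).trans ?_
        rw [sum_comm]
        have h8 : ∀ p ∈ pz z, ∑ n ∈ Icc 1 N, (if p ∣ n then ArithmeticFunction.vonMangoldt n else 0) ≤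
            (Nat.log 2 N + 1 : ℝ) * Real.log N := by
          intro p hp
          rw [← sum_filter]
          exact lam_mult_prime N p (mem_pz.1 hp).2
        refine (sum_le_sum h8).trans ?_
        rw [sum_const, nsmul_eq_mul]
        apply mul_le_mul_of_nonneg_right _ hlN
        exact_mod_cast card_pz_le z
      have h5 : W - lam1 N * ∏ p ∈ S, ((rhoP a p : ℝ) / (p - 1 : ℝ)) = (W - W') + (W' - lam1 N * ∏ p ∈ S, ((rhoP a p : ℝ) / (p - 1 : ℝ))) := by ring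
      rw [h5]
      exact (abs_add_le _ _).trans (add_le_add h4 h3))
  refine key.trans ?_
  have e1 : ∑ j ∈ range (r + 1), ∑ S ∈ (pz z).powersetCard j, (z * ((Nat.log 2 N + 1 : ℝ) * Real.log N) + Ef a N z r (∏ p ∈ S, p)) =
      ((∑ j ∈ range (r + 1), ((pz z).powersetCard j).card : ℕ) : ℝ) * (z * ((Nat.log 2 N + 1 : ℝ) * Real.log N)) +
      ∑ j ∈ range (r + 1), ∑ S ∈ (pz z).powersetCard j, Ef a N z r (∏ p ∈ S, p) := by
    push_cast
    rw [sum_mul, ← sum_add_distrib]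
    apply sum_congr rfl
    intro j _
    rw [sum_add_distrib, sum_const, nsmul_eq_mul]
  rw [e1]
  have h1 := card_small (pz z) r
  have h2 : (((pz z).card : ℝ) + 1) ^ r ≤ ((z : ℝ) + 1) ^ r := by
    have : ((pz z).card : ℝ) ≤ z := by exact_mod_cast card_pz_le z
    gcongr
  have h3 : ((∑ j ∈ range (r + 1), ((pz z).powersetCard j).card : ℕ) : ℝ) * (z * ((Nat.log 2 N + 1 : ℝ) * Real.log N)) ≤
      ((z : ℝ) + 1) ^ r * (z * ((Nat.log 2 N + 1 : ℝ) * Real.log N)) :=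
    mul_le_mul_of_nonneg_right (h1.trans h2) (by positivity)
  have h4 := sum_small_le z r (fun d => Ef a N z r d) (fun d => Ef_nonneg a N z r d)
  have h5 : es (fun p => (rhoP a p : ℝ) / (p - 1 : ℝ)) (pz z) r ≤ Real.exp (3 * ((2 * k : ℕ) * (1 + Real.log z)) - r) := by
    have hg : ∀ p ∈ pz z, (rhoP a p : ℝ) / (p - 1 : ℝ) ≤ (2 * k : ℕ) * (1 / (p : ℝ)) := by
      intro p hp
      have hp2 : (2 : ℝ) ≤ p := by exact_mod_cast (mem_pz.1 hp).2.two_le
      have h6 : (rhoP a p : ℝ) ≤ k := by exact_mod_cast rhoP_le_k a p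
      have hk : (0 : ℝ) ≤ k := Nat.cast_nonneg _
      rw [mul_one_div, div_le_div_iff₀ (by linarith) (by linarith)]
      push_cast
      nlinarith
    refine (es_le (fun p hp => by
      have hp2 : (2 : ℝ) ≤ p := by exact_mod_cast (mem_pz.1 hp).2.two_le
      apply div_nonneg (Nat.cast_nonneg _); linarith) r).trans ?_
    apply Real.exp_le_exp.2
    have h6 := sum_le_sum hg
    rw [← mul_sum] at h6
    have h7 := sum_pz_le z
    have h8 : ((2 * k : ℕ) : ℝ) * ∑ p ∈ pz z, 1 / (p : ℝ) ≤ ((2 * k : ℕ) : ℝ) * (1 + Real.log z) :=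
      mul_le_mul_of_nonneg_left h7 (Nat.cast_nonneg _)
    linarith
  have h6 : 2 * lam1 N * es (fun p => (rhoP a p : ℝ) / (p - 1 : ℝ)) (pz z) r ≤
      2 * lam1 N * Real.exp (3 * ((2 * k : ℕ) * (1 + Real.log z)) - r) :=
    mul_le_mul_of_nonneg_left h5 (by positivity)
  linarith

end Pool.Agent.H373R2.T7
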